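import Pool.Agent.L0h7.KN.Stm

/-!
# Project KN (helper7), module CON: the contraction commutes with colimits of sequences
-/

set_option autoImplicit false
set_option linter.all false

open CategoryTheory

namespace Pool.Agent.L0h37.KN

open Pool.Agent.Y75.NK Pool.Agent.L0h7.KN

theorem t_CON : S_CON := by
  intro hM F hF D B c hc
  have HZ := hM (Multiplicative ℤ) D B c hc
  have HN := hM (Multiplicative ℕ) D B c hc
  have AZ := hF _ _ _ HZ
  have AN := hF _ _ _ HN
  refine ⟨?_, ?_, ?_⟩
  · intro i j h
    have e : (contr F).map (D.map h) ≫ (contr F).map (c j) = (contr F).map (c i) := by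
      rw [← Functor.map_comp, hc.comp h]
    exact e
  · intro b
    obtain ⟨y, rfl⟩ := QuotientAddGroup.mk'_surjective (polySub F B) b
    obtain ⟨i, a, ha⟩ := AZ.surj y
    refine ⟨i, QuotientAddGroup.mk' (polySub F (D.obj i)) a, ?_⟩
    exact congrArg (QuotientAddGroup.mk' (polySub F B)) ha
  · intro i a ha
    obtain ⟨x, rfl⟩ := QuotientAddGroup.mk'_surjective (polySub F (D.obj i)) a
    have h1 : QuotientAddGroup.mk' (polySub F B)
        ((F.map ((monF (Multiplicative ℤ)).map (c i))).hom x) = 0 := ha
    rw [QuotientAddGroup.mk'_apply, QuotientAddGroup.eq_zero_iff] at h1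
    obtain ⟨u, hu, v, hv, huv⟩ := AddSubgroup.mem_sup.1 h1
    obtain ⟨y, rfl⟩ := hu
    obtain ⟨z, rfl⟩ := hv
    obtain ⟨i1, y1, hy1⟩ := AN.surj y
    obtain ⟨i2, z2, hz2⟩ := AN.surj z
    set j := max i (max i1 i2) with hj
    have a0 : i ⟶ j := homOfLE (le_max_left _ _)
    have a1 : i1 ⟶ j := homOfLE ((le_max_left _ _).trans (le_max_right _ _))
    have a2 : i2 ⟶ j := homOfLE ((le_max_right _ _).trans (le_max_right _ _))
    -- the elements at stage `j`
    set x' := (F.map ((monF (Multiplicative ℤ)).map (D.map a0))).hom x with hx'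
    set y' := (F.map ((monF (Multiplicative ℕ)).map (D.map a1))).hom y1 with hy'
    set z' := (F.map ((monF (Multiplicative ℕ)).map (D.map a2))).hom z2 with hz'
    have ex : (F.map ((monF (Multiplicative ℤ)).map (c j))).hom x' =
        (F.map ((monF (Multiplicative ℤ)).map (c i))).hom x :=
      congrArg (fun g => g.hom x) (AZ.comp a0)
    have ey : (F.map ((monF (Multiplicative ℕ)).map (c j))).hom y' = y :=
      (congrArg (fun g => g.hom y1) (AN.comp a1)).trans hy1
    have ez : (F.map ((monF (Multiplicative ℕ)).map (c j))).hom z' = z :=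
      (congrArg (fun g => g.hom z2) (AN.comp a2)).trans hz2
    have np : ∀ (w : F.obj ((monF (Multiplicative ℕ)).obj (D.obj j))),
        (F.map ((monF (Multiplicative ℤ)).map (c j))).hom ((F.map (plus.app (D.obj j))).hom w) =
        (F.map (plus.app B)).hom ((F.map ((monF (Multiplicative ℕ)).map (c j))).hom w) := by
      intro w
      have h := congrArg (fun g => (F.map g).hom w) (plus.naturality (c j))
      simp only [F.map_comp] at h
      exact h.symm
    have nm : ∀ (w : F.obj ((monF (Multiplicative ℕ)).obj (D.obj j))),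
        (F.map ((monF (Multiplicative ℤ)).map (c j))).hom ((F.map (minus.app (D.obj j))).hom w) =
        (F.map (minus.app B)).hom ((F.map ((monF (Multiplicative ℕ)).map (c j))).hom w) := by
      intro w
      have h := congrArg (fun g => (F.map g).hom w) (minus.naturality (c j))
      simp only [F.map_comp] at h
      exact h.symm
    set s : F.obj ((monF (Multiplicative ℤ)).obj (D.obj j)) :=
      (F.map (plus.app (D.obj j))).hom y' + (F.map (minus.app (D.obj j))).hom z' with hs
    have hsm : s ∈ polySub F (D.obj j) :=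
      add_mem (AddSubgroup.mem_sup_left ⟨y', rfl⟩) (AddSubgroup.mem_sup_right ⟨z', rfl⟩)
    have h2 : (F.map ((monF (Multiplicative ℤ)).map (c j))).hom (x' - s) = 0 := by
      rw [map_sub, ex, hs, map_add, np, nm, ey, ez, ← huv, sub_self]
    obtain ⟨k, hk, h3⟩ := AZ.inj j (x' - s) h2
    have h4 : (F.map ((monF (Multiplicative ℤ)).map (D.map hk))).hom (x' - s) = 0 := h3
    rw [map_sub, sub_eq_zero] at h4
    have h5 : (F.map ((monF (Multiplicative ℤ)).map (D.map hk))).hom s ∈ polySub F (D.obj k) :=
      polySub_le F (D.map hk) hsm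
    have h6 : (F.map ((monF (Multiplicative ℤ)).map (D.map (a0 ≫ hk)))).hom x =
        (F.map ((monF (Multiplicative ℤ)).map (D.map hk))).hom x' := by
      rw [Functor.map_comp, Functor.map_comp, Functor.map_comp]
      rfl
    refine ⟨k, a0 ≫ hk, ?_⟩
    show QuotientAddGroup.mk' (polySub F (D.obj k))
      ((F.map ((monF (Multiplicative ℤ)).map (D.map (a0 ≫ hk)))).hom x) = 0
    rw [QuotientAddGroup.mk'_apply, QuotientAddGroup.eq_zero_iff, h6, h4]
    exact h5

end Pool.Agent.L0h37.KN
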